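import Pool.Agent.J6H61.VC.Adm
import Pool.Agent.J6H61.VC.Achi

/-!
# The complexified volume conjecture along the odd integers for achiral rings of tangles

The links are those of the starting file `Pool.Agent.Results.MP_b30479_gt.PolyhedralLinksOdd`
without full twists (`m = 0`), and all definitions not given here are in that file: the closures of
`T_1 U_1 ⋯ T_k U_k`, where `T_i`, `U_i` are the (algebraic) tangles of `2 k` weighted planar trees, on
the strands 1, 2 and 2, 3 in alternation.  For `k ≥ 3` they are the links obtained from Conway's basic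
polyhedron `(2 k)*` by substituting the tangles for the vertices.

The cyclic sequence of the `2 k` trees is supposed to be carried to the sequence of their mirror
images by a rotation or by a reflection.  Then the mirror image of the link is obtained from the link
by mutations: a rotation by an even number of places is an isotopy of the closure, one by an odd
number of places is a conjugation by the half twist, which turns every tangle around a vertical
axis, and a reflection turns every tangle in the plane.  For instance this is so for the doubles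
`T_1 U_1 ⋯ T_k U_k T_1* U_1* ⋯ T_k* U_k*` (these links are amphichiral), and for the links with
`T_i = T`, `U_i = T*` for all `i`, which generalise the Turk's head links.

Then the Kashaev invariants are real numbers, after a correction of the framing (`2` for every
crossing circle: the crossings of the circles are counted as positive), and the Chern-Simons
invariant is `0`.
-/

set_option autoImplicit false

namespace Pool.Agent.Results.MP_b30479_gt.AchiralRings

open Finset Filter Topology
open Pool.Agent.Results.MP_b30479_gt.PolyhedralLinksOdd hiding oddTop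
open Pool.Agent.J6H61.VC (Sharp Expansion)
open Pool.Agent.J6H61.VC.Ring (Admissible)

/-- The trees `t_1, u_1, …, t_k, u_k`, in cyclic order. -/
def cyc (ts : List (Tree × Tree)) : List Tree := (ts.map fun p => [p.1, p.2]).flatten

/-- A rotation or a reflection carries the cyclic sequence of the trees to that of their mirror
images. -/
def Achiral (ts : List (Tree × Tree)) : Prop :=
  (cyc ts).map Tree.mirror ~r cyc ts ∨ (cyc ts).map Tree.mirror ~r (cyc ts).reverse

/-- The number of crossing circles of a tree. -/
def treeCircles : Tree → ℕ
  | .single b _ => if b then 1 else 0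
  | .join t c => treeCircles t + treeCircles c

/-- The number of crossing circles of the ring. -/
def circles (ts : List (Tree × Tree)) : ℕ := ((cyc ts).map treeCircles).sum

/-! ### Checks of the definitions (not part of the result) -/

open Pool.Agent.J6H61.VC (fl fl_map fl_cons fl_nil)

lemma cyc_eq (ts : List (Tree × Tree)) : cyc ts = fl ts := rfl

lemma cyc_mirror (ts : List (Tree × Tree)) : cyc (mirror ts) = (cyc ts).map Tree.mirror :=
  fl_map Tree.mirror ts

lemma mirror_mirror : ∀ t : Tree, t.mirror.mirror = t
  | .single b a => by simp [Tree.mirror]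
  | .join t c => by simp [Tree.mirror, mirror_mirror t, mirror_mirror c]

lemma cyc_append (ss ts : List (Tree × Tree)) : cyc (ss ++ ts) = cyc ss ++ cyc ts := by
  simp [cyc]

/-- The doubles. -/
theorem double_achiral (ts : List (Tree × Tree)) : Achiral (ts ++ mirror ts) := by
  left
  have h1 : (Tree.mirror ∘ Tree.mirror) = id := funext mirror_mirror
  rw [cyc_append, List.map_append, cyc_mirror, List.map_map, h1, List.map_id]
  exact List.isRotated_append

/-- The links which generalise the Turk's head links. -/
theorem turk_achiral (k : ℕ) (t : Tree) : Achiral (List.replicate k (t, t.mirror)) := by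
  left
  rcases k with _ | k
  · exact List.IsRotated.refl _
  refine List.IsRotated.symm ⟨1, ?_⟩
  have h1 : ∀ k : ℕ, ∀ s : Tree, (cyc (List.replicate k (s, s.mirror))) ++ [s] =
      s :: (cyc (List.replicate k (s.mirror, s))) := by
    intro k
    induction k with
    | zero => intro s; rfl
    | succ k ih =>
      intro s
      rw [List.replicate_succ, List.replicate_succ, cyc_eq, fl_cons, ← cyc_eq, List.cons_append,
        List.cons_append, ih s]
      rfl
  have h2 : ∀ k : ℕ, (cyc (List.replicate k (t, t.mirror))).map Tree.mirror =
      cyc (List.replicate k (t.mirror, t)) := by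
    intro k
    rw [← cyc_mirror, mirror, List.map_replicate, mirror_mirror]
  rw [h2, List.replicate_succ, List.replicate_succ, cyc_eq, cyc_eq, fl_cons, fl_cons, ← cyc_eq,
    ← cyc_eq, List.rotate_cons_succ, List.rotate_zero, List.cons_append, h1 k t]

/-! ### Bridges -/

open Pool.Agent.J6H61.VC (Ach JD_ach cs_of sharp_of real_expansion DEq sum_fl)
open Pool.Agent.Y481.DR (JD NoC)
open Pool.Agent.Y481.DX (nbl)
open Pool.Agent.TH563.UV (Tb)

lemma ach_to {ts : List (Tree × Tree)} (h : Achiral ts) : Ach (toTs ts) := by
  have h1 : DEq (fl ts) (fl (mirror ts)) := by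
    rw [← cyc_eq (mirror ts), cyc_mirror]
    exact h
  have h2 := h1.map toTb
  rw [← fl_map, ← fl_map] at h2
  unfold Ach
  have h3 : Pool.Agent.Y482.DX.mir (toTs ts) = toTs (mirror ts) := (mirror_ts ts).symm
  rw [h3]
  exact h2

lemma nb_to : ∀ t : Tree, (toTb t).nb = treeCircles t
  | .single b a => rfl
  | .join t c => by
    simp only [toTb, Tb.nb, treeCircles]
    rw [nb_to t, nb_to c]

lemma nbl_to (ts : List (Tree × Tree)) : nbl (toTs ts) = circles ts := by
  unfold nbl
  rw [sum_fl]
  have h1 : fl (toTs ts) = (fl ts).map toTb := fl_map toTb ts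
  rw [h1, List.map_map]
  unfold circles
  congr 1
  exact List.map_congr_left fun t _ => nb_to t

lemma cv_shift {m : ℤ} {ts : List (Tree × Tree)} {V C : ℝ} (h : ComplexVolume m ts V C) {c : ℤ}
    (hc : C = 2 * Real.pi ^ 2 * c) : ComplexVolume m ts V 0 := by
  refine ⟨h.volume, h.flat, fun f g F G t x h1 h2 h3 => ?_⟩
  obtain ⟨k, hk⟩ := h.sum f g F G t x h1 h2 h3
  refine ⟨k - 2 * c, ?_⟩
  rw [hk, hc]
  push_cast
  linear_combination (2 * (Real.pi : ℂ) ^ 2 * c) * Complex.I_mul_I

/-- **The complexified volume conjecture along the odd integers for achiral rings of tangles.**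
There is an absolute constant `K`, and for all `D` there is an `M` such that the following holds for
all `k ≥ 2` and for the link `L` which is the closure of `T_1 U_1 ⋯ T_k U_k`, with the tangles of `2 k`
weighted trees, if a rotation or a reflection carries the cyclic sequence of the trees to that of
their mirror images, if the roots of the trees have weights of absolute value at least `M` and at
most `D` children, and every other vertex (`n` neighbours, weight `a`) is large, that is
`K² ≤ n² + a²` or it has a crossing circle, or small, that is `a ≤ 0` and `n + |a| ≥ 4`, or `n = 3`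
and `a = 0`, or `n = 1` and `a = -2`, or `a > 0` and `n + a ≥ 5`, and if no two small vertices are
neighbours.
(1) For every `N ≥ 1` the coloured Jones polynomial is continuous at `v_N`, so that `kashaev` is its
value at `q = e^(2 π i / N)` in the usual sense.
(2) Let `b` be the number of crossing circles.  For the framing `2 b` (for the framing of the diagram
if there are no crossing circles) and every sign `f`, `J_N(L)` is a real number for every `N ≥ 2`.
(3) There is a real number `V` such that `V + 0 i` is the complex volume of the complement of `L`: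
`V` is the maximal volume of the angle structures (by Casson and Rivin a point of maximum is the
complete hyperbolic structure, and `V` is the hyperbolic volume), and the Chern-Simons invariant is
`0` modulo `π²`, by Neumann's formula, for every flattening.
(4) Along the odd integers `n`, with `a_n = J_n(L)`, for all framings `e` and signs `f`: `a_n ≠ 0`
for large `n`, `π log (a_{n+2} / a_n) = V + 3 π / n + O (1 / n²)` for a value of the logarithm, and
`a_n / (n^{3/2} exp (n V / 2 π))` has an asymptotic expansion in powers of `1 / n` to all orders,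
with a leading coefficient other than `0`.
(5) For the framing `2 b` all coefficients of this expansion are real. -/
theorem result : ∃ K : ℕ, ∀ D : ℕ, ∃ M : ℕ, ∀ ts : List (Tree × Tree),
    2 ≤ ts.length → Achiral ts → (∀ p ∈ ts, Admissible K D M p.1 ∧ Admissible K D M p.2) →
    (∀ N : ℕ, 1 ≤ N → ContinuousAt (jones 0 ts N) (root N)) ∧
    (∀ (f : ℤ) (N : ℕ), 2 ≤ N → (kashaev (2 * circles ts) f 0 ts N).im = 0) ∧
    ∃ V : ℝ, ComplexVolume 0 ts V 0 ∧ (∀ e f : ℤ, Sharp (kashaev e f 0 ts) V 0) ∧
      ∀ f : ℤ, ∃ x : ℕ → ℝ, x 0 ≠ 0 ∧
        Expansion (kashaev (2 * circles ts) f 0 ts) V 0 fun k => (x k : ℂ) := by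
  obtain ⟨K, hK, h, -⟩ := Pool.Agent.N566.RX.allf_s
  refine ⟨⌈K⌉₊, fun D => ?_⟩
  obtain ⟨M, hM⟩ := h D
  refine ⟨⌈M⌉₊, fun ts hlen hach hok => ?_⟩
  have hts : toTs ts ≠ [] := by
    rw [← List.length_pos_iff, toTs_len]
    omega
  have hOk := Pool.Agent.J6H61.VC.Ring.ok_ofV hK hok
  have hcx := hM (toTs ts) 0 hts (by rw [toTs_len]; omega) hOk
  rw [Nat.cast_zero] at hcx
  obtain ⟨V, C, h1, h2⟩ := hcx
  rw [toTs_len] at h1
  have hk : ∀ e f : ℤ, kashaev e f 0 ts = fun N => Pool.Agent.Y482.DX.fr e f N *
      JD (toTs ts) 0 N (Pool.Agent.W711.HT.vN N) := fun e f => funext fun N =>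
    kashaev_eq e f 0 ts N
  have hreal : ∀ (f : ℤ) (N : ℕ), 2 ≤ N → (kashaev (2 * circles ts) f 0 ts N).im = 0 := by
    intro f N hN
    rw [hk, ← nbl_to]
    exact JD_ach hN hts hOk.nc (ach_to hach) f
  have hrealE : ∀ f : ℤ, ∀ᶠ N : ℕ in atTop, (kashaev (2 * circles ts) f 0 ts N).im = 0 :=
    fun f => (eventually_ge_atTop 2).mono fun N hN => hreal f N hN
  obtain ⟨c, hc⟩ : ∃ c : ℤ, C = 2 * Real.pi ^ 2 * c := by
    obtain ⟨⟨y, hy, hE⟩, -⟩ := h2 (2 * circles ts) 0
    refine cs_of hy hE ?_
    have := hrealE 0
    rw [hk] at this
    exact this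
  refine ⟨fun N hN => cont _ _ hN, hreal, V, cv_shift (complexVolume_of h1) hc, ?_, ?_⟩
  · intro e f
    obtain ⟨⟨y, hy, hE⟩, -⟩ := h2 e f
    refine sharp_of (c + (e + f)) hy ?_
    rw [hk]
    have e1 : (0 : ℝ) + 2 * Real.pi ^ 2 * ((c + (e + f) : ℤ) : ℝ) =
        C + 2 * Real.pi ^ 2 * (e + f) := by
      rw [hc]
      push_cast
      ring
    rw [e1]
    exact hE
  · intro f
    obtain ⟨⟨y, hy, hE⟩, -⟩ := h2 (2 * circles ts) f
    refine real_expansion (c + (2 * circles ts + f)) hy ?_ (hrealE f)
    rw [hk]
    have e1 : 2 * Real.pi ^ 2 * ((c + (2 * circles ts + f) : ℤ) : ℝ) =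
        C + 2 * Real.pi ^ 2 * (((2 * circles ts : ℤ) : ℝ) + f) := by
      rw [hc]
      push_cast
      ring
    rw [e1]
    exact hE

end Pool.Agent.Results.MP_b30479_gt.AchiralRings
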