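import Pool.Agent.J6H61.VC.AdmA
import Pool.Agent.J6H61.VC.Achi

/-!
# The complexified volume conjecture along the odd integers for achiral rings of tangles with their
# axes

The links are those of the starting file `Pool.Agent.Results.MP_b30479_gt.PolyhedralAxisOdd`, and all
definitions not given here are in that file: the closures of
`(s_1 s_2 s_1)^{2 m} T_1 U_1 ⋯ T_k U_k`, where `T_i`, `U_i` are the (algebraic) tangles of `2 k`
weighted planar trees, and `m` is an integer, together with their axes.

The cyclic sequence of the `2 k` trees is supposed to be carried to the sequence of their mirror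
images by a rotation or by a reflection.  Then the mirror image of the link with `m = 0` is obtained
from the link by mutations: a rotation by an even number of places is an isotopy in the solid torus,
one by an odd number of places is a conjugation by the half twist, which turns every tangle around a
vertical axis, and a reflection turns every tangle in the plane.  For instance this is so for the
doubles `T_1 U_1 ⋯ T_k U_k T_1* U_1* ⋯ T_k* U_k*`, and for `T_i = T`, `U_i = T*` for all `i`.

Then for `m = 0` the Kashaev invariants are real numbers, after a correction of the framing (`2` for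
every crossing circle and `3` for the axis: the crossings of the circles and of the axis are counted
as positive), and the Chern-Simons invariant is `0`, for every `m` (the complement does not depend on
`m`).
-/

set_option autoImplicit false

namespace Pool.Agent.Results.MP_b30479_gt.AchiralRingsWithAxis

open Finset Filter Topology
open Pool.Agent.Results.MP_b30479_gt.PolyhedralAxisOdd hiding oddTop
open Pool.Agent.J6H61.VC (Sharp Expansion)
open Pool.Agent.J6H61.VC.Axis (Admissible)

/-- The mirror image of a tree: all weights are negated. -/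
def treeMirror : Tree → Tree
  | .single b a => .single b (-a)
  | .join t c => .join (treeMirror t) (treeMirror c)

/-- The trees `t_1, u_1, …, t_k, u_k`, in cyclic order. -/
def cyc (ts : List (Tree × Tree)) : List Tree := (ts.map fun p => [p.1, p.2]).flatten

/-- A rotation or a reflection carries the cyclic sequence of the trees to that of their mirror
images. -/
def Achiral (ts : List (Tree × Tree)) : Prop :=
  (cyc ts).map treeMirror ~r cyc ts ∨ (cyc ts).map treeMirror ~r (cyc ts).reverse

/-- The number of crossing circles of a tree. -/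
def treeCircles : Tree → ℕ
  | .single b _ => if b then 1 else 0
  | .join t c => treeCircles t + treeCircles c

/-- The number of crossing circles of the ring. -/
def circles (ts : List (Tree × Tree)) : ℕ := ((cyc ts).map treeCircles).sum

/-! ### Checks of the definitions (not part of the result) -/

open Pool.Agent.J6H61.VC (fl fl_map fl_cons fl_nil)

lemma cyc_eq (ts : List (Tree × Tree)) : cyc ts = fl ts := rfl

lemma mirror_mirror : ∀ t : Tree, treeMirror (treeMirror t) = t
  | .single b a => by simp [treeMirror]
  | .join t c => by simp [treeMirror, mirror_mirror t, mirror_mirror c]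

lemma cyc_append (ss ts : List (Tree × Tree)) : cyc (ss ++ ts) = cyc ss ++ cyc ts := by
  simp [cyc]

/-- The doubles. -/
theorem double_achiral (ts : List (Tree × Tree)) :
    Achiral (ts ++ ts.map fun p => (treeMirror p.1, treeMirror p.2)) := by
  left
  have h1 : (treeMirror ∘ treeMirror) = id := funext mirror_mirror
  have h2 : cyc (ts.map fun p => (treeMirror p.1, treeMirror p.2)) = (cyc ts).map treeMirror :=
    fl_map treeMirror ts
  rw [cyc_append, List.map_append, h2, List.map_map, h1, List.map_id]
  exact List.isRotated_append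

/-! ### Bridges -/

open Pool.Agent.J6H61.VC (Ach JX_ach cs_of sharp_of real_expansion DEq sum_fl)
open Pool.Agent.Y481.DR (NoC)
open Pool.Agent.Y481.DX (nbl JX)
open Pool.Agent.TH563.UV (Tb)

lemma mirror_to : ∀ t : Tree, toTb (treeMirror t) = Pool.Agent.TH563.UV.ngb (toTb t)
  | .single b a => rfl
  | .join t c => by
    simp only [treeMirror, toTb]
    rw [mirror_to t, mirror_to c]
    rfl

lemma ach_to {ts : List (Tree × Tree)} (h : Achiral ts) : Ach (toTs ts) := by
  have h1 : DEq (fl ts) ((fl ts).map treeMirror) := h
  have h2 := h1.map toTb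
  unfold Ach
  have h3 : fl (toTs ts) = (fl ts).map toTb := fl_map toTb ts
  have h4 : fl (Pool.Agent.Y482.DX.mir (toTs ts)) = (fl (toTs ts)).map Pool.Agent.TH563.UV.ngb :=
    fl_map Pool.Agent.TH563.UV.ngb (toTs ts)
  rw [h4, h3, List.map_map]
  rw [List.map_map] at h2
  have h5 : (Pool.Agent.TH563.UV.ngb ∘ toTb) = (toTb ∘ treeMirror) :=
    funext fun t => (mirror_to t).symm
  rw [h5]
  exact h2

lemma nb_to : ∀ t : Tree, (toTb t).nb = treeCircles t
  | .single b a => rfl
  | .join t c => by
    simp only [toTb, Tb.nb, treeCircles]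
    rw [nb_to t, nb_to c]

lemma nbl_to (ts : List (Tree × Tree)) : nbl (toTs ts) = circles ts := by
  unfold nbl
  rw [sum_fl]
  have h1 : fl (toTs ts) = (fl ts).map toTb := fl_map toTb ts
  rw [h1, List.map_map]
  unfold circles
  congr 1
  exact List.map_congr_left fun t _ => nb_to t

lemma cv_shift {ts : List (Tree × Tree)} {V C : ℝ} (h : ComplexVolume ts V C) {c : ℤ}
    (hc : C = 2 * Real.pi ^ 2 * c) : ComplexVolume ts V 0 := by
  refine ⟨h.volume, h.flat, fun f g F G t x h1 h2 h3 => ?_⟩
  obtain ⟨k, hk⟩ := h.sum f g F G t x h1 h2 h3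
  refine ⟨k - 2 * c, ?_⟩
  rw [hk, hc]
  push_cast
  linear_combination (2 * (Real.pi : ℂ) ^ 2 * c) * Complex.I_mul_I

/-- the complex volume is unique -/
lemma cv_unique {ts : List (Tree × Tree)} {V V' C : ℝ} (h : ComplexVolume ts V 0)
    (h' : ComplexVolume ts V' C) : V' = V ∧ ∃ c : ℤ, C = c * Real.pi ^ 2 := by
  have hV : V' = V := h'.volume.unique h.volume
  subst hV
  refine ⟨rfl, ?_⟩
  obtain ⟨f, g, F, G, t, x, h1, h2, h3⟩ := h.flat
  obtain ⟨k, hk⟩ := h.sum f g F G t x h1 h2 h3
  obtain ⟨k', hk'⟩ := h'.sum f g F G t x h1 h2 h3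
  rw [hk] at hk'
  refine ⟨k' - k, ?_⟩
  have h4 : ((C : ℝ) : ℂ) = (((k' - k : ℤ) * Real.pi ^ 2 : ℝ) : ℂ) := by
    push_cast
    push_cast at hk'
    linear_combination hk' + (C : ℂ) * Complex.I_mul_I
  exact_mod_cast h4

/-- **The complexified volume conjecture along the odd integers for achiral rings of tangles with
their axes.**  There is an absolute constant `K`, and for all `D` and `k ≥ 1` there is an `M` such
that the following holds for the links `L_m` which consist of the closure of
`(s_1 s_2 s_1)^{2 m} T_1 U_1 ⋯ T_k U_k`, with the tangles of `2 k` weighted trees, and of its axis, if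
a rotation or a reflection carries the cyclic sequence of the trees to that of their mirror images,
if the roots of the trees have weights of absolute value at least `M` and at most `D` children, and
every other vertex (`n` neighbours, weight `a`) is large, that is `K² ≤ n² + a²` or it has a crossing
circle, or small, that is `a ≤ 0` and `n + |a| ≥ 4`, or `n = 3` and `a = 0`, or `n = 1` and `a = -2`,
or `a > 0` and `n + a ≥ 5`, and if no two small vertices are neighbours.
(1) For all `m` and every `N ≥ 1` the coloured Jones polynomial is continuous at `v_N`, so that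
`kashaev` is its value at `q = e^(2 π i / N)` in the usual sense.
(2) Let `b` be the number of crossing circles.  For the framing `2 b + 3` and every sign `f`,
`J_N(L_0)` is a real number for every `N ≥ 2`.
(3) There is a real number `V` such that `V + 0 i` is the complex volume of the complement of `L_m`
(which does not depend on `m`): `V` is the maximal volume of the angle structures (by Casson and
Rivin a point of maximum is the complete hyperbolic structure, and `V` is the hyperbolic volume),
and the Chern-Simons invariant is `0` modulo `π²`, by Neumann's formula, for every flattening.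
(4) Along the odd integers `n`, with `a_n = J_n(L_0)`, for all framings `e` and signs `f`: `a_n ≠ 0`
for large `n`, `π log (a_{n+2} / a_n) = V + 3 π / n + O (1 / n²)` for a value of the logarithm, and
`a_n / (n^{3/2} exp (n V / 2 π))` has an asymptotic expansion in powers of `1 / n` to all orders,
with a leading coefficient other than `0`; for the framing `2 b + 3` all its coefficients are real.
(5) The same holds for `a_n = J_n(L_m)`, for every integer `m`, except for the last statement, and
with `V + i c π²` instead of `V`, where `c` is an integer. -/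
theorem result : ∃ K : ℕ, ∀ D k : ℕ, 1 ≤ k → ∃ M : ℕ, ∀ ts : List (Tree × Tree),
    ts.length = k → Achiral ts → (∀ p ∈ ts, Admissible K D M p.1 ∧ Admissible K D M p.2) →
    (∀ (m : ℤ) (N : ℕ), 1 ≤ N → ContinuousAt (jones m ts N) (root N)) ∧
    (∀ (f : ℤ) (N : ℕ), 2 ≤ N → (kashaev (2 * circles ts + 3) f 0 ts N).im = 0) ∧
    ∃ V : ℝ, ComplexVolume ts V 0 ∧ (∀ e f : ℤ, Sharp (kashaev e f 0 ts) V 0) ∧
      (∀ f : ℤ, ∃ x : ℕ → ℝ, x 0 ≠ 0 ∧
        Expansion (kashaev (2 * circles ts + 3) f 0 ts) V 0 fun k => (x k : ℂ)) ∧
      ∀ m e f : ℤ, ∃ c : ℤ, Sharp (kashaev e f m ts) V (c * Real.pi ^ 2) := by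
  obtain ⟨K, hK, -, h⟩ := Pool.Agent.N566.RX.allf_s
  refine ⟨⌈K⌉₊, fun D k hk1 => ?_⟩
  obtain ⟨M, hM⟩ := h D k hk1
  refine ⟨⌈M⌉₊, fun ts hlen hach hok => ?_⟩
  have hts : toTs ts ≠ [] := by
    rw [← List.length_pos_iff, toTs_len]
    omega
  have hOk := Pool.Agent.J6H61.VC.Axis.ok_ofV hK hok
  have hcx : ∀ m : ℤ, Pool.Agent.Y482.DX.CxFX (toTs ts) m := fun m =>
    (hM (toTs ts) m (by rw [toTs_len, hlen]) hOk).2
  have hk : ∀ m e f : ℤ, kashaev e f m ts = fun N => Pool.Agent.Y482.DX.fr e f N *
      JX (toTs ts) m N (Pool.Agent.W711.HT.vN N) := fun m e f => funext fun N =>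
    kashaev_eq e f m ts N
  obtain ⟨V, C, h1, h2⟩ := hcx 0
  rw [toTs_len] at h1
  have hreal : ∀ (f : ℤ) (N : ℕ), 2 ≤ N → (kashaev (2 * circles ts + 3) f 0 ts N).im = 0 := by
    intro f N hN
    rw [hk, ← nbl_to]
    exact JX_ach hN hts hOk.nc (ach_to hach) f
  have hrealE : ∀ f : ℤ, ∀ᶠ N : ℕ in atTop, (kashaev (2 * circles ts + 3) f 0 ts N).im = 0 :=
    fun f => (eventually_ge_atTop 2).mono fun N hN => hreal f N hN
  obtain ⟨c, hc⟩ : ∃ c : ℤ, C = 2 * Real.pi ^ 2 * c := by
    obtain ⟨y, hy, hE⟩ := h2 (2 * circles ts + 3) 0
    refine cs_of hy hE ?_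
    have := hrealE 0
    rw [hk] at this
    exact this
  have hV := cv_shift (complexVolume_of h1) hc
  refine ⟨fun m N hN => cont _ _ hN, hreal, V, hV, ?_, ?_, ?_⟩
  · intro e f
    obtain ⟨y, hy, hE⟩ := h2 e f
    refine sharp_of (c + (e + f)) hy ?_
    rw [hk]
    have e1 : (0 : ℝ) + 2 * Real.pi ^ 2 * ((c + (e + f) : ℤ) : ℝ) =
        C + 2 * Real.pi ^ 2 * (e + f) := by
      rw [hc]
      push_cast
      ring
    rw [e1]
    exact hE
  · intro f
    obtain ⟨y, hy, hE⟩ := h2 (2 * circles ts + 3) f
    refine real_expansion (c + (2 * circles ts + 3 + f)) hy ?_ (hrealE f)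
    rw [hk]
    have e1 : 2 * Real.pi ^ 2 * ((c + (2 * circles ts + 3 + f) : ℤ) : ℝ) =
        C + 2 * Real.pi ^ 2 * (((2 * circles ts + 3 : ℤ) : ℝ) + f) := by
      rw [hc]
      push_cast
      ring
    rw [e1]
    exact hE
  · intro m e f
    obtain ⟨V', C', h1', h2'⟩ := hcx m
    rw [toTs_len] at h1'
    obtain ⟨hVV, c', hc'⟩ := cv_unique hV (complexVolume_of h1')
    subst hVV
    obtain ⟨y, hy, hE⟩ := h2' e f
    refine ⟨c', sharp_of (e + f) hy ?_⟩
    rw [hk]
    have e1 : (c' : ℝ) * Real.pi ^ 2 + 2 * Real.pi ^ 2 * ((e + f : ℤ) : ℝ) =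
        C' + 2 * Real.pi ^ 2 * (e + f) := by
      rw [hc']
      push_cast
      ring
    rw [e1]
    exact hE

end Pool.Agent.Results.MP_b30479_gt.AchiralRingsWithAxis
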