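import Pool.Agent.J6H61.VC.AdmA

/-!
# The complexified volume conjecture along the odd integers, with its rate of convergence, for
# rings of tangles with small vertices together with their axes

The links are those of the starting file `Pool.Agent.Results.MP_b30479_gt.PolyhedralAxisOdd`, and all
definitions not given here are in that file: the closures of
`(s_1 s_2 s_1)^{2 m} T_1 U_1 ⋯ T_k U_k`, where `T_i`, `U_i` are the (algebraic) tangles of `2 k`
weighted planar trees, and `m` is an integer, together with their axes; `jones` is their coloured
Jones polynomial from the R-matrix of `U_q(sl_2)`, `kashaev` its value at `q = e^(2 π i / N)` with a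
framing and a sign, and `ComplexVolume` says that `V + i C` is the complex volume of the complement.

In that file all vertices of the trees other than the roots have to be large, or to have a crossing
circle, and the convergence has no rate.  Here the trees may also have small vertices, with few
crossings and few neighbours, no two of them adjacent (`Axis.Admissible`), and the ratios converge
with the rate `3 π / n + O (1 / n²)` (`Sharp`).
-/

set_option autoImplicit false

namespace Pool.Agent.Results.MP_b30479_gt.AxisSmallVerticesSharp

open Finset Filter Topology
open Pool.Agent.Results.MP_b30479_gt.PolyhedralAxisOdd hiding oddTop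
open Pool.Agent.J6H61.VC (Sharp)
open Pool.Agent.J6H61.VC.Axis (Admissible)
open Pool.Agent.Y481.DX (JX)

/-- **The complexified volume conjecture along the odd integers, with its rate, for rings of
arborescent tangles with small vertices and their axes.**  There is an absolute constant `K`, and for
all `D` and `k ≥ 1` there is an `M` such that the following holds for every integer `m` and for the
link `L` which consists of the closure of `(s_1 s_2 s_1)^{2 m} T_1 U_1 ⋯ T_k U_k`, with the tangles of
`2 k` weighted trees, and of its axis, if the roots of the trees have weights of absolute value at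
least `M` and at most `D` children, and every other vertex (`n` neighbours, weight `a`) is large, that
is `K² ≤ n² + a²` or it has a crossing circle, or small, that is `a ≤ 0` and `n + |a| ≥ 4`, or
`n = 3` and `a = 0`, or `n = 1` and `a = -2`, or `a > 0` and `n + a ≥ 5`, and if no two small vertices
are neighbours.
(1) For every `N ≥ 1` the coloured Jones polynomial is continuous at `v_N`, so that `kashaev` is its
value at `q = e^(2 π i / N)` in the usual sense.
(2) There are real numbers `V`, `C` such that `V + i C` is the complex volume of the complement of
`L`: `V` is the maximal volume of the angle structures (by Casson and Rivin a point of maximum is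
the complete hyperbolic structure, and `V` is the hyperbolic volume), and `C` is modulo `π²` the
Chern-Simons invariant by Neumann's formula, for every flattening.
(3) Along the odd integers `n`, with `a_n = J_n(L)`, for all framings `e` and signs `f`, and with the
representative `C' = C + 2 π² (e + f)` of the Chern-Simons invariant: `a_n ≠ 0` for large `n`,
`π log (a_{n+2} / a_n) = V + i C' + 3 π / n + O (1 / n²)` for a value of the logarithm, and
`a_n / (n^{3/2} exp (n (V + i C') / 2 π))` has an asymptotic expansion in powers of `1 / n` to all
orders, with a leading coefficient other than `0`. -/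
theorem result : ∃ K : ℕ, ∀ D k : ℕ, 1 ≤ k → ∃ M : ℕ, ∀ (m : ℤ) (ts : List (Tree × Tree)),
    ts.length = k → (∀ p ∈ ts, Admissible K D M p.1 ∧ Admissible K D M p.2) →
    (∀ N : ℕ, 1 ≤ N → ContinuousAt (jones m ts N) (root N)) ∧
    ∃ V C : ℝ, ComplexVolume ts V C ∧ ∀ e f : ℤ,
      Sharp (kashaev e f m ts) V (C + 2 * Real.pi ^ 2 * (e + f)) := by
  obtain ⟨K, hK, -, h⟩ := Pool.Agent.N566.RX.allf_s
  refine ⟨⌈K⌉₊, fun D k hk => ?_⟩
  obtain ⟨M, hM⟩ := h D k hk
  refine ⟨⌈M⌉₊, fun m ts hlen hok => ⟨fun N hN => cont _ _ hN, ?_⟩⟩
  obtain ⟨V, C, h1, h2⟩ := (hM (toTs ts) m (by rw [toTs_len, hlen])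
    (Pool.Agent.J6H61.VC.Axis.ok_ofV hK hok)).2
  rw [toTs_len] at h1
  refine ⟨V, C, complexVolume_of h1, fun e f => ?_⟩
  obtain ⟨y, hy, hE⟩ := h2 e f
  refine Pool.Agent.J6H61.VC.sharp_of' hy ?_
  have e1 : kashaev e f m ts = fun N => Pool.Agent.Y482.DX.fr e f N *
      JX (toTs ts) m N (Pool.Agent.W711.HT.vN N) := funext fun N => kashaev_eq e f m ts N
  rw [e1]
  exact hE

end Pool.Agent.Results.MP_b30479_gt.AxisSmallVerticesSharp
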