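import Pool.Agent.J6H61.VC.Adm

/-!
# The complexified volume conjecture along the odd integers, with its rate of convergence, for
# links on Conway polyhedra with small vertices

The links are those of the starting file `Pool.Agent.Results.MP_b30479_gt.PolyhedralLinksOdd`, and
all definitions not given here are in that file: the closures of
`(s_1 s_2 s_1)^{2 m} T_1 U_1 ⋯ T_k U_k`, where `T_i`, `U_i` are the (algebraic) tangles of `2 k`
weighted planar trees, and `m` is an integer; `jones` is their coloured Jones polynomial from the
R-matrix of `U_q(sl_2)`, `kashaev` its value at `q = e^(2 π i / N)` with a framing and a sign, and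
`ComplexVolume` says that `V + i C` is the complex volume of the complement: `V` is the maximal
volume of the angle structures of an ideal decomposition, and `C` is given by Neumann's formula.

In that file all vertices of the trees other than the roots have to be large, or to have a crossing
circle, and the convergence has no rate.  Here the trees may also have small vertices, with few
crossings and few neighbours, no two of them adjacent (`Ring.Admissible`), and the ratios converge
with the rate `3 π / n + O (1 / n²)` (`Sharp`).
-/

set_option autoImplicit false

namespace Pool.Agent.Results.MP_b30479_gt.RingsSmallVerticesSharp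

open Finset Filter Topology
open Pool.Agent.Results.MP_b30479_gt.PolyhedralLinksOdd hiding oddTop
open Pool.Agent.J6H61.VC (Sharp)
open Pool.Agent.J6H61.VC.Ring (Admissible)
open Pool.Agent.Y481.DR (JD)

/-- **The complexified volume conjecture along the odd integers, with its rate, for links on Conway's
polyhedra `(2 k)*` with small vertices in the inserted tangles.** There is an absolute constant `K`,
and for all `D` there is an `M` such that the following holds for all `k ≥ 1` and `m ≥ 0`,
`(k, m) ≠ (1, 0)`, for the link `L` which is the closure of `(s_1 s_2 s_1)^{2 m} T_1 U_1 ⋯ T_k U_k`,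
with the tangles of `2 k` weighted trees, and for its mirror image `L*` (all weights and `m` negated;
any number of components), if the roots of the trees have weights of absolute value at least `M` and
at most `D` children, and every other vertex (`n` neighbours, weight `a`) is large, that is
`K² ≤ n² + a²` or it has a crossing circle, or small, that is `a ≤ 0` and `n + |a| ≥ 4`, or `n = 3`
and `a = 0`, or `n = 1` and `a = -2`, or `a > 0` and `n + a ≥ 5`, and if no two small vertices are
neighbours.
(1) For every `N ≥ 1` the coloured Jones polynomials are continuous at `v_N`, so that `kashaev` is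
their value at `q = e^(2 π i / N)` in the usual sense.
(2) There are real numbers `V`, `C` such that `V + i C` is the complex volume of the complement of
`L`: `V` is the maximal volume of the angle structures (by Casson and Rivin a point of maximum is
the complete hyperbolic structure, and `V` is the hyperbolic volume), and `C` is modulo `π²` the
Chern-Simons invariant by Neumann's formula, for every flattening; the complex volume of the
complement of `L*` is then `V - i C`.
(3) Along the odd integers `n`, with `a_n = J_n(L)`, for all framings `e` and signs `f`, and with the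
representative `C' = C + 2 π² (e + f)` of the Chern-Simons invariant: `a_n ≠ 0` for large `n`,
`π log (a_{n+2} / a_n) = V + i C' + 3 π / n + O (1 / n²)` for a value of the logarithm, and
`a_n / (n^{3/2} exp (n (V + i C') / 2 π))` has an asymptotic expansion in powers of `1 / n` to all
orders, with a leading coefficient other than `0`.
(4) The same holds for `L*` with `-C` instead of `C`. -/
theorem result : ∃ K : ℕ, ∀ D : ℕ, ∃ M : ℕ, ∀ (m : ℕ) (ts : List (Tree × Tree)),
    ts ≠ [] → ¬ (ts.length = 1 ∧ m = 0) →
    (∀ p ∈ ts, Admissible K D M p.1 ∧ Admissible K D M p.2) →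
    (∀ N : ℕ, 1 ≤ N → ContinuousAt (jones m ts N) (root N) ∧
      ContinuousAt (jones (-m) (mirror ts) N) (root N)) ∧
    ∃ V C : ℝ, ComplexVolume m ts V C ∧ ∀ e f : ℤ,
      Sharp (kashaev e f m ts) V (C + 2 * Real.pi ^ 2 * (e + f)) ∧
      Sharp (kashaev e f (-m) (mirror ts)) V (-C + 2 * Real.pi ^ 2 * (e + f)) := by
  obtain ⟨K, hK, h, -⟩ := Pool.Agent.N566.RX.allf_s
  refine ⟨⌈K⌉₊, fun D => ?_⟩
  obtain ⟨M, hM⟩ := h D
  refine ⟨⌈M⌉₊, fun m ts hts hkm hok => ⟨fun N hN => ⟨cont _ _ hN, cont _ _ hN⟩, ?_⟩⟩
  obtain ⟨V, C, h1, h2⟩ := hM (toTs ts) m (by simpa [toTs] using hts)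
    (by simpa [toTs] using hkm) (Pool.Agent.J6H61.VC.Ring.ok_ofV hK hok)
  rw [toTs_len] at h1
  refine ⟨V, C, complexVolume_of h1, fun e f => ?_⟩
  obtain ⟨⟨y, hy, hE⟩, ⟨y', hy', hE'⟩⟩ := h2 e f
  constructor
  · refine Pool.Agent.J6H61.VC.sharp_of' hy ?_
    have e1 : kashaev e f m ts = fun N => Pool.Agent.Y482.DX.fr e f N *
        JD (toTs ts) m N (Pool.Agent.W711.HT.vN N) := funext fun N => kashaev_eq e f m ts N
    rw [e1]
    exact hE
  · refine Pool.Agent.J6H61.VC.sharp_of' hy' ?_
    have e1 : kashaev e f (-m) (mirror ts) = fun N => Pool.Agent.Y482.DX.fr e f N *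
        JD (Pool.Agent.Y482.DX.mir (toTs ts)) (-m) N (Pool.Agent.W711.HT.vN N) := by
      funext N
      rw [kashaev_eq, mirror_ts]
      rfl
    rw [e1]
    exact hE'

end Pool.Agent.Results.MP_b30479_gt.RingsSmallVerticesSharp
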